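import Pool.Graph.R_seed8.Results.MP_d237fe_co.LogarithmicSaving

set_option autoImplicit false

/-!
# MP_d237fe_co: labellings of `K_n` all of whose increasing paths have length at most
`7 n log log n / log n`

The constant `516` of the library bound is replaced by `7`.
-/

namespace Pool.Agent.Results.MP_d237fe_co.ConstantSeven

open Finset Helper650Alt Pool.Agent.Y423.AL
open Pool.Agent.Results.MP_d237fe_co.LogarithmicSaving (Labelling IsIncreasingPath)

/-- the schedule of level `k` started at level `j`: the raw inequality for the normalised length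
of an increasing path -/
theorem raw_bound (k j : ℕ) (hjk : j ≤ k) : ∃ (X : Type) (_ : Fintype X) (_ : DecidableEq X)
    (τ : X → X → ℕ), Fintype.card X = 2 ^ k ∧ (∀ x y, τ x y < 2 ^ k) ∧
    ∀ v l, Inc opp (tm τ) 0 (2 ^ k) v l → (v :: l).Nodup →
      ∃ lam : ℝ, 0 ≤ lam ∧ (l.length : ℝ) = lam * 2 ^ k ∧
        (((k - j : ℕ) : ℝ) + 1) / 8 * lam ^ 2 ≤ 9 / 8 * lam + Real.negMulLog lam +
          (4 + 2 * (j : ℝ)) / 2 ^ j := by
  obtain ⟨X, P, i1, i2, i3, vis, τ, hcard, halt, hτ, hcomp, hZ⟩ := exists_lvl j (k - j)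
  have hk : j + (k - j) = k := by omega
  rw [hk] at hcard hτ hcomp hZ
  refine ⟨X, i1, i2, τ, hcard, hτ, fun v l hl hn => ?_⟩
  obtain ⟨p, hp⟩ := hcomp v l hl hn
  have h1 := hZ v
  set M : ℝ := 2 ^ k with hM
  have hM0 : 0 < M := by positivity
  have hM1 : 1 ≤ M := one_le_pow₀ (by norm_num)
  set κ : ℝ := (((k - j : ℕ) : ℝ) + 1) / 8 with hκ
  set A : ℝ := (4 + 2 * (j : ℝ)) / 2 ^ j with hA
  have h2 : wt κ M l.length ≤ ZW vis (wt κ M) v := by
    unfold ZW
    have h3 := Finset.single_le_sum (s := (univ : Finset P)) (f := fun p : P =>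
      if (v :: vis p v).Nodup then wt κ M (vis p v).length else 0)
      (fun p _ => by
        split_ifs
        · exact (wt_pos _ _ _).le
        · exact le_rfl) (Finset.mem_univ p)
    simp only [hp, hn, if_true] at h3
    exact h3
  have h4 : Real.exp (A * M) / (16 * M) ≤ Real.exp (A * M) :=
    div_le_self (Real.exp_pos _).le (by linarith)
  have h5 := Real.exp_le_exp.mp ((h2.trans h1).trans h4)
  set lam : ℝ := (l.length : ℝ) / M with hlam
  have hlM : (l.length : ℝ) = lam * M := by rw [hlam]; field_simp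
  refine ⟨lam, by positivity, hlM, ?_⟩
  rw [HH, ← hlam, hlM] at h5
  have h7 : κ * (lam * M) ^ 2 / M = κ * lam ^ 2 * M := by field_simp
  rw [h7] at h5
  have h8 : (κ * lam ^ 2) * M ≤ (9 / 8 * lam + Real.negMulLog lam + A) * M := by linarith
  exact le_of_mul_le_mul_right h8 hM0

/-- solving the raw inequality -/
theorem solve (K A lam mu : ℝ) (hK : 0 < K) (hA : 0 ≤ A) (hmu : 0 < mu)
    (h : K / 8 * lam ^ 2 ≤ 9 / 8 * lam + Real.negMulLog lam + A)
    (hm : 9 / 8 - Real.log mu + A / mu ≤ K / 8 * mu) : lam ≤ mu := by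
  by_contra hcon
  push Not at hcon
  have hl0 : 0 < lam := hmu.trans hcon
  have h1 : Real.log mu < Real.log lam := Real.log_lt_log hmu hcon
  have h2 : A / lam ≤ A / mu := div_le_div_of_nonneg_left hA hmu hcon.le
  have h3 : K / 8 * mu < K / 8 * lam := mul_lt_mul_of_pos_left hcon (by positivity)
  have h4 : K / 8 * lam ≤ 9 / 8 - Real.log lam + A / lam := by
    have h5 : K / 8 * lam * lam ≤ (9 / 8 - Real.log lam + A / lam) * lam := by
      have e : (9 / 8 - Real.log lam + A / lam) * lam = 9 / 8 * lam + Real.negMulLog lam + A := by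
        rw [Real.negMulLog]; field_simp; ring
      rw [e]
      nlinarith
    exact le_of_mul_le_mul_right h5 hl0
  linarith

/-! the main estimate, for `n ≥ 2 ^ 30` -/
set_option maxHeartbeats 4000000 in
theorem large (n m : ℕ) (hm : 30 ≤ m) (hn1 : 2 ^ m ≤ n) (hn2 : n < 2 ^ (m + 1)) :
    ∃ lab : Sym2 (Fin n) → ℕ,
    Set.BijOn lab (⊤ : SimpleGraph (Fin n)).edgeSet (Set.Icc 1 (n.choose 2)) ∧
    ∀ (u v : Fin n) (w : (⊤ : SimpleGraph (Fin n)).Walk u v), w.IsPath →
      (w.edges.map lab).Pairwise (· < ·) →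
        (w.length : ℝ) ≤ 7 * (n * Real.log (Real.log n) / Real.log n) := by
  have hn0 : (0 : ℝ) < n := by
    have : 0 < n := lt_of_lt_of_le (by positivity) hn1
    exact_mod_cast this
  have l2 := Real.log_two_gt_d9
  have l2' := Real.log_two_lt_d9
  set b := Real.log 2 with hb
  have hb0 : 0 < b := by linarith
  have hmR : (30 : ℝ) ≤ m := by exact_mod_cast hm
  set x : ℝ := ((m : ℝ) + 1) * b with hx
  have hx1 : 21.48 ≤ x := by rw [hx]; nlinarith
  have hx0 : 0 < x := by linarith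
  set L := Real.log x with hL
  have hL3 : 3 ≤ L := by
    rw [hL, Real.le_log_iff_exp_le hx0]
    have h3 : Real.exp 3 = Real.exp 1 ^ 3 := by rw [← Real.exp_nat_mul]; norm_num
    have h4 : Real.exp 1 ^ 3 ≤ 2.7182818286 ^ 3 :=
      pow_le_pow_left₀ (Real.exp_pos _).le Real.exp_one_lt_d9.le _
    rw [h3]
    exact h4.trans (le_trans (by norm_num) hx1)
  -- upper bound for `L`
  set y := √x with hy
  have hy0 : 0 ≤ y := Real.sqrt_nonneg _
  have hyy : y * y = x := Real.mul_self_sqrt hx0.le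
  have hy1 : 4.63 ≤ y := by
    rw [hy]
    apply Real.le_sqrt_of_sq_le
    exact le_trans (by norm_num) hx1
  have hLy : L ≤ 0.7726 + y / 2 := by
    have h1 : Real.log (y / 4) ≤ y / 4 - 1 := Real.log_le_sub_one_of_pos (by positivity)
    have h2 : Real.log (y / 4) = Real.log y - 2 * b := by
      rw [Real.log_div (by positivity) (by norm_num), show (4 : ℝ) = 2 ^ 2 by norm_num,
        Real.log_pow]
      push_cast; rfl
    have h3 : L = 2 * Real.log y := by
      rw [hL, ← hyy, Real.log_mul (by positivity) (by positivity)]; ring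
    linarith
  -- `log 2 * p ≤ log (m + 1)`
  set p := Nat.log 2 (m + 1) with hp
  have hp1 : 2 ^ p ≤ m + 1 := Nat.pow_log_le_self 2 (by omega)
  have hp2 : m + 1 < 2 ^ (p + 1) := Nat.lt_pow_succ_log_self (by norm_num) _
  have hp1' : (2 : ℝ) ^ p ≤ (m : ℝ) + 1 := by exact_mod_cast hp1
  have hp2' : (m : ℝ) + 1 ≤ 2 * 2 ^ p := by
    have : ((m + 1 : ℕ) : ℝ) ≤ ((2 ^ (p + 1) : ℕ) : ℝ) := by exact_mod_cast hp2.le
    push_cast at this
    rw [pow_succ] at this
    linarith
  have hpb : (p : ℝ) * b ≤ L + 0.3667 := by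
    have h1 : Real.log ((2 : ℝ) ^ p) ≤ Real.log ((m : ℝ) + 1) :=
      Real.log_le_log (by positivity) hp1'
    rw [Real.log_pow] at h1
    have h2 : L = Real.log ((m : ℝ) + 1) + Real.log b := by
      rw [hL, hx, Real.log_mul (by positivity) hb0.ne']
    have h3 : -0.3667 ≤ Real.log b := by
      have h4 : Real.log b = - Real.log (b⁻¹) := by rw [Real.log_inv]; ring
      have h5 : b⁻¹ ≤ Real.exp 0.3667 := by
        have h6 : (1 : ℝ) + 0.3667 + 0.3667 ^ 2 / 2 + 0.3667 ^ 3 / 6 + 0.3667 ^ 4 / 24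
            ≤ Real.exp 0.3667 := by
          have := Real.sum_le_exp_of_nonneg (show (0 : ℝ) ≤ 0.3667 by norm_num) 5
          simp only [Finset.sum_range_succ, Finset.sum_range_zero, Nat.factorial] at this
          norm_num at this ⊢
          linarith
        have h7 : b⁻¹ ≤ (0.6931471803 : ℝ)⁻¹ := inv_anti₀ (by norm_num) l2.le
        refine h7.trans (le_trans ?_ h6)
        norm_num
      have h8 : Real.log (b⁻¹) ≤ 0.3667 := by
        rw [Real.log_le_iff_le_exp (by positivity)]; exact h5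
      linarith
    linarith
  -- the parameters
  have hpm : 2 * p + 3 ≤ m := by
    have h1 : (p : ℝ) ≤ (L + 0.3667) / b := by rw [le_div_iff₀ hb0]; exact hpb
    have h2 : ((2 * p + 3 : ℕ) : ℝ) ≤ m := by
      push_cast
      have h3 : (2 * (p : ℝ) + 3) * b ≤ m * b := by
        have : (m : ℝ) * b = x - b := by rw [hx]; ring
        nlinarith
      exact le_of_mul_le_mul_right h3 hb0
    exact_mod_cast h2
  obtain ⟨X, i1, i2, τ, hcard, hτ, hbd⟩ := raw_bound (m - p) (p + 3) (by omega)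
  set k := m - p with hk
  set K : ℝ := ((k - (p + 3) : ℕ) : ℝ) + 1 with hK
  have hKv : K = (m : ℝ) + 1 - 2 * p - 3 := by
    have e : k - (p + 3) = m - (2 * p + 3) := by omega
    rw [hK, e, Nat.cast_sub hpm]
    push_cast; ring
  have hKb : x - 2 * L - 2.813 ≤ K * b := by
    rw [hKv]
    have : ((m : ℝ) + 1 - 2 * p - 3) * b = x - 2 * (p * b) - 3 * b := by rw [hx]; ring
    rw [this]
    linarith
  have hK0 : 0 < K := by rw [hK]; positivity
  set A : ℝ := (4 + 2 * ((p + 3 : ℕ) : ℝ)) / 2 ^ (p + 3) with hA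
  have hA0 : 0 ≤ A := by positivity
  set mu : ℝ := 6 * (L / x) with hmu
  have hmu0 : 0 < mu := by positivity
  have hmu1 : mu ≤ 1 := by
    rw [hmu, ← mul_div_assoc, div_le_one hx0, ← hyy]
    nlinarith
  have hAmu : A / mu ≤ 0.19 := by
    have e1 : A ≤ (10 + 2 * (p : ℝ)) / (4 * ((m : ℝ) + 1)) := by
      rw [hA]
      have e2 : (4 + 2 * ((p + 3 : ℕ) : ℝ)) = 10 + 2 * p := by push_cast; ring
      rw [e2]
      apply div_le_div_of_nonneg_left (by positivity) (by positivity)
      rw [pow_add]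
      linarith
    rw [div_le_iff₀ hmu0]
    refine e1.trans ?_
    rw [div_le_iff₀ (by positivity), hmu]
    have e3 : 0.19 * (6 * (L / x)) * (4 * ((m : ℝ) + 1)) = 4.56 * L / b := by
      rw [hx]; field_simp; norm_num
    rw [e3, le_div_iff₀ hb0]
    nlinarith
  have hlog : -Real.log mu ≤ L - 1 - 1.719 := by
    have e1 : Real.log mu = Real.log 6 + Real.log L - L := by
      rw [hmu, Real.log_mul (by norm_num) (by positivity), Real.log_div (by positivity) hx0.ne',
        hL]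
      ring
    have e2 : 1 ≤ Real.log L := by
      rw [Real.le_log_iff_exp_le (by linarith)]
      have := Real.exp_one_lt_d9
      linarith
    have e3 : 1.719 ≤ Real.log 6 := by
      have e4 : Real.log 6 = 2 * b + Real.log 1.5 := by
        rw [show (6 : ℝ) = 2 ^ 2 * 1.5 by norm_num, Real.log_mul (by norm_num) (by norm_num),
          Real.log_pow]
        push_cast; rfl
      have e5 : 1 - (1.5 : ℝ)⁻¹ ≤ Real.log 1.5 := Real.one_sub_inv_le_log_of_pos (by norm_num)
      have e6 : (1 / 3 : ℝ) ≤ 1 - (1.5 : ℝ)⁻¹ := by norm_num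
      linarith
    linarith
  have hcrit : 9 / 8 - Real.log mu + A / mu ≤ K / 8 * mu := by
    have e1 : K / 8 * mu = (6 / (8 * b)) * (L * (K * b) / x) := by
      rw [hmu]; field_simp
    have e2 : L * (x - 2 * L - 2.813) / x ≤ L * (K * b) / x := by
      apply div_le_div_of_nonneg_right _ hx0.le
      exact mul_le_mul_of_nonneg_left hKb (by linarith)
    have e3 : L * (x - 2 * L - 2.813) / x = L - L * (2 * L + 2.813) / x := by
      field_simp
      ring
    have e4 : L * (2 * L + 2.813) / x ≤ 1.52 := by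
      rw [div_le_iff₀ hx0, ← hyy]
      nlinarith
    have e5 : (1.082 : ℝ) ≤ 6 / (8 * b) := by
      rw [le_div_iff₀ (by positivity)]
      linarith
    have e6 : L - 1.52 ≤ L * (K * b) / x := by linarith
    have e7 : 1.082 * (L - 1.52) ≤ (6 / (8 * b)) * (L * (K * b) / x) :=
      mul_le_mul e5 e6 (by linarith) (by positivity)
    rw [e1]
    linarith
  have hlen' : ∀ v l, Inc opp (tm τ) 0 (2 ^ k) v l → (v :: l).Nodup →
      l.length ≤ ⌊mu * 2 ^ k⌋₊ := by
    intro v l hl hn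
    obtain ⟨lam, c1, c2, c3⟩ := hbd v l hl hn
    apply Nat.le_floor
    rw [c2]
    exact mul_le_mul_of_nonneg_right (solve K A lam mu hK0 hA0 hmu0 c3 hcrit) (by positivity)
  obtain ⟨lab, hbij, hlab⟩ := kn k ⌊mu * 2 ^ k⌋₊ n τ hcard hτ hlen'
  refine ⟨lab, hbij, fun u v w hw hinc => ?_⟩
  have hlen := hlab u v w hw hinc
  have g1 : (w.length : ℝ) ≤ ((n / 2 ^ k + 1 : ℕ) : ℝ) * (⌊mu * 2 ^ k⌋₊ : ℕ) + 2 ^ k := by
    exact_mod_cast hlen
  have g2 : ((⌊mu * 2 ^ k⌋₊ : ℕ) : ℝ) ≤ mu * 2 ^ k := Nat.floor_le (by positivity)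
  have g3 : ((n / 2 ^ k + 1 : ℕ) : ℝ) * 2 ^ k ≤ n + 2 ^ k := by
    have h1 : (n / 2 ^ k + 1) * 2 ^ k ≤ n + 2 ^ k := by
      have := Nat.div_mul_le_self n (2 ^ k)
      have h3 : (n / 2 ^ k + 1) * 2 ^ k = n / 2 ^ k * 2 ^ k + 2 ^ k := by ring
      omega
    have h2 : (((n / 2 ^ k + 1) * 2 ^ k : ℕ) : ℝ) ≤ ((n + 2 ^ k : ℕ) : ℝ) := by exact_mod_cast h1
    push_cast at h2 ⊢
    linarith
  have g4 : (w.length : ℝ) ≤ mu * (n + 2 ^ k) + 2 ^ k := by
    calc (w.length : ℝ) ≤ ((n / 2 ^ k + 1 : ℕ) : ℝ) * (⌊mu * 2 ^ k⌋₊ : ℕ) + 2 ^ k := g1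
      _ ≤ ((n / 2 ^ k + 1 : ℕ) : ℝ) * (mu * 2 ^ k) + 2 ^ k := by
          have := mul_le_mul_of_nonneg_left g2 (Nat.cast_nonneg (α := ℝ) (n / 2 ^ k + 1))
          linarith
      _ = mu * (((n / 2 ^ k + 1 : ℕ) : ℝ) * 2 ^ k) + 2 ^ k := by ring
      _ ≤ mu * (n + 2 ^ k) + 2 ^ k := by
          have := mul_le_mul_of_nonneg_left g3 hmu0.le
          linarith
  have g5 : (2 : ℝ) ^ k * ((m : ℝ) + 1) ≤ 2 * n := by
    have h1 : (2 : ℝ) ^ k * 2 ^ p = 2 ^ m := by
      rw [← pow_add]; congr 1; omega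
    have h2 : (2 : ℝ) ^ m ≤ n := by exact_mod_cast hn1
    calc (2 : ℝ) ^ k * ((m : ℝ) + 1) ≤ 2 ^ k * (2 * 2 ^ p) :=
          mul_le_mul_of_nonneg_left hp2' (by positivity)
      _ = 2 * 2 ^ m := by rw [← h1]; ring
      _ ≤ 2 * n := by linarith
  have g6 : 2 * (2 : ℝ) ^ k ≤ n * (L / x) := by
    rw [← mul_div_assoc, le_div_iff₀ hx0, hx]
    have h1 : 2 * (2 : ℝ) ^ k * (((m : ℝ) + 1) * b) = 2 * b * (2 ^ k * ((m : ℝ) + 1)) := by ring
    rw [h1]
    calc 2 * b * (2 ^ k * ((m : ℝ) + 1)) ≤ 2 * b * (2 * n) :=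
          mul_le_mul_of_nonneg_left g5 (by positivity)
      _ = 4 * b * n := by ring
      _ ≤ 3 * n := mul_le_mul_of_nonneg_right (by linarith) hn0.le
      _ ≤ n * L := by nlinarith
  have g7 : (w.length : ℝ) ≤ 7 * (n * (L / x)) := by
    have h1 : mu * (n + 2 ^ k) + 2 ^ k = 6 * (n * (L / x)) + (mu + 1) * 2 ^ k := by
      rw [hmu]; ring
    have h2 : (mu + 1) * (2 : ℝ) ^ k ≤ 2 * 2 ^ k :=
      mul_le_mul_of_nonneg_right (by linarith) (by positivity)
    linarith
  -- compare with `log log n / log n`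
  have hln1 : Real.log n ≤ x := by
    have h1 : (n : ℝ) ≤ 2 ^ (m + 1) := by exact_mod_cast hn2.le
    have h2 := Real.log_le_log hn0 h1
    rw [Real.log_pow] at h2
    push_cast at h2
    exact h2
  have hln2 : Real.exp 1 ≤ Real.log n := by
    have h1 : (2 : ℝ) ^ m ≤ n := by exact_mod_cast hn1
    have h2 := Real.log_le_log (by positivity) h1
    rw [Real.log_pow] at h2
    have h3 := Real.exp_one_lt_d9
    nlinarith
  have hanti := Real.log_div_self_antitoneOn (a := Real.log n) (b := x) hln2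
    (le_trans hln2 hln1) hln1
  have hanti' : L / x ≤ Real.log (Real.log n) / Real.log n := hanti
  calc (w.length : ℝ) ≤ 7 * (n * (L / x)) := g7
    _ ≤ 7 * (n * (Real.log (Real.log n) / Real.log n)) := by
        have := mul_le_mul_of_nonneg_left hanti' hn0.le
        linarith
    _ = 7 * (n * Real.log (Real.log n) / Real.log n) := by rw [mul_div_assoc]

/-- the trivial bound for `n < 2 ^ 30` -/
theorem small (n : ℕ) (hn : 16 ≤ n) (hn2 : n < 2 ^ 30) :
    (n : ℝ) ≤ 7 * (n * Real.log (Real.log n) / Real.log n) := by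
  have hnR : (16 : ℝ) ≤ n := by exact_mod_cast hn
  have hn0 : (0 : ℝ) < n := by linarith
  have l2 := Real.log_two_gt_d9
  have l2' := Real.log_two_lt_d9
  have h1 : Real.log n ≤ 20.8 := by
    have e1 : (n : ℝ) ≤ 2 ^ 30 := by exact_mod_cast hn2.le
    have e2 := Real.log_le_log hn0 e1
    rw [Real.log_pow] at e2
    push_cast at e2
    linarith
  have h2 : Real.exp 1 ≤ Real.log n := by
    have e1 : Real.log 16 ≤ Real.log n := Real.log_le_log (by norm_num) hnR
    have e2 : Real.log 16 = 4 * Real.log 2 := by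
      rw [show (16 : ℝ) = 2 ^ 4 by norm_num, Real.log_pow]; norm_num
    have := Real.exp_one_lt_d9
    linarith
  have hanti := Real.log_div_self_antitoneOn (a := Real.log n) (b := 20.8) h2
    (le_trans h2 h1) h1
  have hanti' : Real.log 20.8 / 20.8 ≤ Real.log (Real.log n) / Real.log n := hanti
  have h3 : 3 ≤ Real.log 20.8 := by
    rw [Real.le_log_iff_exp_le (by norm_num)]
    have h3 : Real.exp 3 = Real.exp 1 ^ 3 := by rw [← Real.exp_nat_mul]; norm_num
    have h4 : Real.exp 1 ^ 3 ≤ 2.7182818286 ^ 3 :=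
      pow_le_pow_left₀ (Real.exp_pos _).le Real.exp_one_lt_d9.le _
    rw [h3]
    exact h4.trans (by norm_num)
  have h4 : (1 : ℝ) / 7 ≤ Real.log 20.8 / 20.8 := by
    rw [le_div_iff₀ (by norm_num)]
    linarith
  have h5 : (1 : ℝ) / 7 ≤ Real.log (Real.log n) / Real.log n := h4.trans hanti'
  have h6 := mul_le_mul_of_nonneg_left h5 hn0.le
  rw [mul_div_assoc]
  linarith

/-- For every `n ≥ 16` there is a labelling of `K_n` in which every increasing path has length
(number of edges) at most `7 * n * log log n / log n`. -/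
theorem result : ∀ n : ℕ, 16 ≤ n → ∃ L : Labelling n,
    ∀ (u v : Fin n) (w : (⊤ : SimpleGraph (Fin n)).Walk u v),
      IsIncreasingPath L w →
        (w.length : ℝ) ≤ 7 * (n * Real.log (Real.log n) / Real.log n) := by
  intro n hn
  by_cases h : n < 2 ^ 30
  · obtain ⟨lab, hbij, -⟩ := Pool.Agent.Y423.AL.main n hn
    refine ⟨⟨lab, hbij⟩, fun u v w hw => ?_⟩
    have h1 : w.length < Fintype.card (Fin n) := hw.1.length_lt
    rw [Fintype.card_fin] at h1
    have h2 : (w.length : ℝ) ≤ n := by exact_mod_cast h1.le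
    exact h2.trans (small n hn h)
  · have h30 : 2 ^ 30 ≤ n := not_lt.1 h
    have hm : 30 ≤ Nat.log 2 n := Nat.le_log_of_pow_le (by norm_num) h30
    obtain ⟨lab, hbij, hlab⟩ := large n (Nat.log 2 n) hm
      (Nat.pow_log_le_self 2 (by omega)) (Nat.lt_pow_succ_log_self (by norm_num) n)
    exact ⟨⟨lab, hbij⟩, fun u v w hw => hlab u v w hw.1 hw.2⟩

end Pool.Agent.Results.MP_d237fe_co.ConstantSeven
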